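import Mathlib

/-!
Derived invariance of the chamber condition in the Neron-Ogg-Shafarevich criterion for K3
surfaces.  `N` is the extended Neron-Severi lattice of the special fibre, `G` the Galois group of
the residue field, acting through the cohomology of the generic fibre.
-/

namespace Pool.Agent.Results.MP_819329_ag.StableChamber

open Module

variable {G N : Type*} [Group G] [AddCommGroup N] [DistribMulAction G N]

/-- A K3 frame of the lattice `(N, b)` with its action of `G`: two `G`-fixed isotropic vectors `v`,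
`w` with `b v w = 1` (the classes of degree `4` and `0` of a K3 surface), and a `G`-fixed vector
`L` orthogonal to both, of positive square, whose orthogonal complement in the orthogonal
complement of `v, w` is negative definite (a polarisation). -/
structure K3Frame (G : Type*) {N : Type*} [Group G] [AddCommGroup N] [DistribMulAction G N]
    (b : LinearMap.BilinForm ℤ N) where
  /-- the point class -/
  v : N
  /-- the class of degree zero -/
  w : N
  /-- the polarisation -/
  L : N
  fix_v : ∀ g : G, g • v = v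
  fix_w : ∀ g : G, g • w = w
  fix_L : ∀ g : G, g • L = L
  vv : b v v = 0
  ww : b w w = 0
  vw : b v w = 1
  Lv : b L v = 0
  Lw : b L w = 0
  pos : 0 < b L L
  neg : ∀ x : N, b x v = 0 → b x w = 0 → b x L = 0 → x ≠ 0 → b x x < 0

/-- The Neron-Severi lattice of a frame: the orthogonal complement of `v` and `w`. -/
def K3Frame.NS {b : LinearMap.BilinForm ℤ N} (F : K3Frame G b) : Set N :=
  {x | b x F.v = 0 ∧ b x F.w = 0}

/-- The exceptional roots of a frame: the vectors of square `-2` in its Neron-Severi lattice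
which are orthogonal to the polarisation `L`. -/
def K3Frame.excRoots {b : LinearMap.BilinForm ℤ N} (F : K3Frame G b) : Set N :=
  {r | r ∈ F.NS ∧ b r r = -2 ∧ b F.L r = 0}

/-- `G` stabilises a Weyl chamber of the root system of the exceptional roots: there is a vector
`y` on none of the mirrors, such that `y` and `g y` lie on the same side of every mirror for all
`g` in `G`. -/
def K3Frame.HasStableChamber {b : LinearMap.BilinForm ℤ N} (F : K3Frame G b) : Prop :=
  ∃ y ∈ F.NS, (∀ r ∈ F.excRoots, b y r ≠ 0) ∧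
    ∀ g : G, ∀ r ∈ F.excRoots, 0 < b (g • y) r * b y r

/-- There is a `G`-fixed class of positive square in the Neron-Severi lattice of the frame which
is orthogonal to no root at all and whose chamber has `L` in its closure. -/
def K3Frame.HasInvariantPolarisation {b : LinearMap.BilinForm ℤ N} (F : K3Frame G b) : Prop :=
  ∃ x ∈ F.NS, (∀ g : G, g • x = x) ∧ 0 < b x x ∧ 0 < b x F.L ∧
    ∀ r ∈ F.NS, b r r = -2 → b x r ≠ 0 ∧ 0 ≤ b x r * b F.L r

/-- No vector of square `-2` in the whole lattice `N` is orthogonal to all `G`-fixed vectors. -/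
def NoInvisibleRoot (G : Type*) {N : Type*} [Group G] [AddCommGroup N] [DistribMulAction G N]
    (b : LinearMap.BilinForm ℤ N) : Prop :=
  ∀ r : N, b r r = -2 → ∃ x : N, (∀ g : G, g • x = x) ∧ b x r ≠ 0

section CS

variable {b : LinearMap.BilinForm ℤ N}

/-- Cauchy-Schwarz in the negative definite complement. -/
theorem cs (hsymm : ∀ x y, b x y = b y x) (F : K3Frame G b) {x y : N}
    (hx : x ∈ F.NS) (hy : y ∈ F.NS) (hxL : b x F.L = 0) (hyL : b y F.L = 0) :
    (b x y) ^ 2 ≤ b x x * b y y := by
  have hneg : ∀ z : N, z ∈ F.NS → b z F.L = 0 → b z z ≤ 0 := by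
    intro z hz hzL
    by_cases h0 : z = 0
    · subst h0; simp
    · exact (F.neg z hz.1 hz.2 hzL h0).le
  by_cases h0 : b y y = 0
  · have hy0 : y = 0 := by
      by_contra hne
      have := F.neg y hy.1 hy.2 hyL hne
      omega
    subst hy0
    simp
  · have hyneg : b y y < 0 := lt_of_le_of_ne (hneg y hy hyL) h0
    have hz := hneg ((b y y) • x - (b x y) • y) (by
      refine ⟨?_, ?_⟩
      · simp [hx.1, hy.1]
      · simp [hx.2, hy.2]) (by simp [hxL, hyL])
    have hexp : b ((b y y) • x - (b x y) • y) ((b y y) • x - (b x y) • y) =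
        b y y * (b y y * b x x - (b x y) ^ 2) := by
      simp only [map_sub, map_smul, LinearMap.sub_apply, LinearMap.smul_apply, smul_eq_mul,
        hsymm y x]
      ring
    rw [hexp] at hz
    by_contra hlt
    push Not at hlt
    have : 0 < b y y * (b y y * b x x - (b x y) ^ 2) :=
      mul_pos_of_neg_of_neg hyneg (by nlinarith)
    omega

/-- Bound of the product with a root in terms of the product with the polarisation. -/
theorem bound (hsymm : ∀ x y, b x y = b y x) (F : K3Frame G b) {y : N} (hy : y ∈ F.NS) :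
    ∃ C : ℤ, 0 ≤ C ∧ (∀ r ∈ F.NS, b r r = -2 → b F.L r = 0 → |b y r| ≤ C) ∧
      (∀ r ∈ F.NS, b r r = -2 → b F.L r ≠ 0 → |b y r| ≤ C * |b F.L r|) := by
  have hpos := F.pos
  set l := b F.L F.L with hl
  set y' : N := l • y - (b y F.L) • F.L with hy'
  have hy'NS : y' ∈ F.NS := by
    refine ⟨?_, ?_⟩
    · simp [hy', hy.1, F.Lv]
    · simp [hy', hy.2, F.Lw]
  have hy'L : b y' F.L = 0 := by
    simp only [hy', map_sub, map_smul, LinearMap.sub_apply, LinearMap.smul_apply, smul_eq_mul,
      ← hl]
    ring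
  have key : ∀ r ∈ F.NS, b r r = -2 →
      (l * (l * b y r - b y F.L * b F.L r)) ^ 2 ≤
        |b y' y'| * (2 * l ^ 2 + l * (b F.L r) ^ 2) := by
    intro r hr hrr
    set r' : N := l • r - (b F.L r) • F.L with hr'
    have hr'NS : r' ∈ F.NS := by
      refine ⟨?_, ?_⟩
      · simp [hr', hr.1, F.Lv]
      · simp [hr', hr.2, F.Lw]
    have hr'L : b r' F.L = 0 := by
      simp only [hr', map_sub, map_smul, LinearMap.sub_apply, LinearMap.smul_apply, smul_eq_mul,
        ← hl, hsymm r F.L]
      ring
    have h1 := cs hsymm F hy'NS hr'NS hy'L hr'L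
    have h2 : b y' r' = l * (l * b y r - b y F.L * b F.L r) := by
      simp only [hy', hr', map_sub, map_smul, LinearMap.sub_apply, LinearMap.smul_apply,
        smul_eq_mul, ← hl]
      ring
    have h3 : b r' r' = -(2 * l ^ 2 + l * (b F.L r) ^ 2) := by
      simp only [hr', map_sub, map_smul, LinearMap.sub_apply, LinearMap.smul_apply,
        smul_eq_mul, ← hl, hsymm r F.L, hrr]
      ring
    rw [h2, h3] at h1
    refine h1.trans ?_
    have h4 : 0 ≤ 2 * l ^ 2 + l * (b F.L r) ^ 2 := by positivity
    have h5 : -(b y' y') ≤ |b y' y'| := neg_le_abs _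
    nlinarith
  have hl1 : 1 ≤ l := by omega
  refine ⟨|b y F.L| + |b y' y'| * (2 * l ^ 2 + l) + 1, by positivity, ?_, ?_⟩
  · intro r hr hrr hLr
    have h := key r hr hrr
    rw [hLr] at h
    have h6 : (l * (l * b y r)) ^ 2 ≤ |b y' y'| * (2 * l ^ 2) := by simpa using h
    have h7 : (b y r) ^ 2 ≤ (l * (l * b y r)) ^ 2 := by
      have : (l * (l * b y r)) ^ 2 = l ^ 4 * (b y r) ^ 2 := by ring
      rw [this]
      have : 1 ≤ l ^ 4 := one_le_pow₀ hl1
      nlinarith [sq_nonneg (b y r)]
    have h8 : |b y r| ≤ (b y r) ^ 2 := by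
      rw [← sq_abs]
      rcases eq_or_ne (b y r) 0 with h0 | h0
      · rw [h0]; simp
      · have : 1 ≤ |b y r| := Int.one_le_abs h0
        nlinarith
    have h9 : 0 ≤ |b y' y'| := abs_nonneg _
    have h10 : 0 ≤ |b y F.L| := abs_nonneg _
    nlinarith
  · intro r hr hrr hLr
    have h := key r hr hrr
    have hLr1 : 1 ≤ |b F.L r| := Int.one_le_abs hLr
    have hLr2 : 1 ≤ (b F.L r) ^ 2 := by rw [← sq_abs]; nlinarith
    set t := l * b y r - b y F.L * b F.L r with ht
    set A := |b y' y'| * (2 * l ^ 2 + l) with hA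
    have hA0 : 0 ≤ A := by positivity
    have h1 : t ^ 2 ≤ A * (b F.L r) ^ 2 := by
      have e1 : (l * t) ^ 2 = l ^ 2 * t ^ 2 := by ring
      have e2 : t ^ 2 ≤ (l * t) ^ 2 := by
        rw [e1]
        have : 1 ≤ l ^ 2 := one_le_pow₀ hl1
        nlinarith [sq_nonneg t]
      have e3 : |b y' y'| * (2 * l ^ 2 + l * (b F.L r) ^ 2) ≤ A * (b F.L r) ^ 2 := by
        rw [hA, mul_assoc]
        refine mul_le_mul_of_nonneg_left ?_ (abs_nonneg _)
        nlinarith [sq_nonneg l]
      exact e2.trans (h.trans e3)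
    have h2 : |t| ≤ (A + 1) * |b F.L r| := by
      refine abs_le_of_sq_le_sq' ?_ (by positivity) |> fun hh => abs_le.mpr hh
      have : ((A + 1) * |b F.L r|) ^ 2 = (A + 1) ^ 2 * (b F.L r) ^ 2 := by
        rw [mul_pow, sq_abs]
      rw [this]
      have : A ≤ (A + 1) ^ 2 := by nlinarith
      nlinarith [sq_nonneg (b F.L r)]
    have h3 : |l * b y r| ≤ |t| + |b y F.L| * |b F.L r| := by
      have : l * b y r = t + b y F.L * b F.L r := by rw [ht]; ring
      rw [this, ← abs_mul]
      exact abs_add_le _ _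
    have h4 : |b y r| ≤ |l * b y r| := by
      rw [abs_mul, abs_of_pos hpos]
      nlinarith [abs_nonneg (b y r)]
    have : (|b y F.L| + A + 1) * |b F.L r| = (A + 1) * |b F.L r| + |b y F.L| * |b F.L r| := by
      ring
    rw [this]
    linarith

end CS

section Main

variable {b : LinearMap.BilinForm ℤ N}

/-- The fixed part of the Neron-Severi lattice. -/
def fixedNS (F : K3Frame G b) : Submodule ℤ N where
  carrier := {x | x ∈ F.NS ∧ ∀ g : G, g • x = x}
  add_mem' := by
    rintro x y ⟨hx, hgx⟩ ⟨hy, hgy⟩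
    refine ⟨⟨by simp [hx.1, hy.1], by simp [hx.2, hy.2]⟩, fun g => ?_⟩
    rw [smul_add, hgx, hgy]
  zero_mem' := ⟨⟨by simp, by simp⟩, fun g => smul_zero g⟩
  smul_mem' := by
    rintro c x ⟨hx, hgx⟩
    refine ⟨⟨by simp [hx.1], by simp [hx.2]⟩, fun g => ?_⟩
    rw [smul_comm, hgx]

theorem mem_fixedNS (F : K3Frame G b) (x : N) :
    x ∈ fixedNS F ↔ x ∈ F.NS ∧ ∀ g : G, g • x = x := Iff.rfl

theorem exists_generic_finset (hsymm : ∀ x y, b x y = b y x) (F : K3Frame G b) (S : Finset N)
    (hS : ∀ s ∈ S, s ∈ fixedNS F) :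
    ∃ y ∈ fixedNS F, ∀ r ∈ F.excRoots, b y r = 0 → ∀ s ∈ S, b s r = 0 := by
  classical
  induction S using Finset.induction_on with
  | empty => exact ⟨0, Submodule.zero_mem _, by simp⟩
  | insert s S hs ih =>
    obtain ⟨y, hy, hyr⟩ := ih (fun t ht => hS t (Finset.mem_insert_of_mem ht))
    have hsF := hS s (Finset.mem_insert_self s S)
    obtain ⟨C, hC, hb1, -⟩ := bound hsymm F hy.1
    refine ⟨y + (C + 1) • s, Submodule.add_mem _ hy (Submodule.smul_mem _ _ hsF), ?_⟩
    intro r hr h0
    have h1 : b y r + (C + 1) * b s r = 0 := by simpa using h0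
    have h2 := hb1 r hr.1 hr.2.1 hr.2.2
    have h3 : b s r = 0 := by
      by_contra hne
      have h4 : 1 ≤ |b s r| := Int.one_le_abs hne
      have h5 : |b y r| = (C + 1) * |b s r| := by
        have : b y r = -((C + 1) * b s r) := by linarith
        rw [this, abs_neg, abs_mul, abs_of_nonneg (by omega : (0:ℤ) ≤ C + 1)]
      nlinarith
    have h6 : b y r = 0 := by rw [h3] at h1; simpa using h1
    intro t ht
    rcases Finset.mem_insert.mp ht with rfl | ht
    · exact h3
    · exact hyr r hr h6 t ht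

theorem exists_generic [Module.Finite ℤ N] (hsymm : ∀ x y, b x y = b y x) (F : K3Frame G b)
    (h : NoInvisibleRoot G b) :
    ∃ y ∈ fixedNS F, ∀ r ∈ F.excRoots, b y r ≠ 0 := by
  obtain ⟨S, hS⟩ := (IsNoetherian.noetherian (fixedNS F) : (fixedNS F).FG)
  obtain ⟨y, hy, hyr⟩ := exists_generic_finset hsymm F S
    (fun s hs => hS ▸ Submodule.subset_span hs)
  refine ⟨y, hy, ?_⟩
  intro r hr h0
  obtain ⟨x, hx, hxr⟩ := h r hr.2.1
  have hspan : ∀ z ∈ fixedNS F, b z r = 0 := by
    intro z hz
    rw [← hS] at hz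
    induction hz using Submodule.span_induction with
    | mem s hs => exact hyr r hr h0 s hs
    | zero => simp
    | add a c _ _ ha hc => simp [ha, hc]
    | smul a c _ hc => simp [hc]
  have hwv : b F.w F.v = 1 := by rw [hsymm]; exact F.vw
  have hxM : x - (b x F.w) • F.v - (b x F.v) • F.w ∈ fixedNS F := by
    refine ⟨⟨?_, ?_⟩, fun g => ?_⟩
    · simp [F.vv, hwv]
    · simp [F.ww, F.vw]
    · rw [smul_sub, smul_sub, hx g, smul_comm g (b x F.w), smul_comm g (b x F.v), F.fix_v,
        F.fix_w]
  have h1 := hspan _ hxM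
  have hrv : b F.v r = 0 := by rw [hsymm]; exact hr.1.1
  have hrw : b F.w r = 0 := by rw [hsymm]; exact hr.1.2
  apply hxr
  simpa [hrv, hrw] using h1

theorem root_contra (hsymm : ∀ x y, b x y = b y x) (F : K3Frame G b)
    (horb : ∀ x : N, (MulAction.orbit G x).Finite) {r : N} (hr : b r r = -2)
    (hinv : ∀ x : N, (∀ g : G, g • x = x) → b x r = 0) (h : F.HasStableChamber) : False := by
  classical
  obtain ⟨y, -, hy0, hy⟩ := h
  have hrF : r ∈ F.excRoots := by
    refine ⟨⟨?_, ?_⟩, hr, hinv _ F.fix_L⟩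
    · rw [hsymm]; exact hinv _ F.fix_v
    · rw [hsymm]; exact hinv _ F.fix_w
  set O := (horb y).toFinset with hO
  have hfix : ∀ g : G, g • (∑ z ∈ O, z) = ∑ z ∈ O, z := by
    intro g
    rw [Finset.smul_sum]
    refine Finset.sum_bij (fun z _ => g • z) ?_ ?_ ?_ ?_
    · intro z hz
      rw [hO, Set.Finite.mem_toFinset] at hz ⊢
      obtain ⟨k, rfl⟩ := hz
      exact ⟨g * k, by simp [mul_smul]⟩
    · intro z _ z' _ hzz
      exact smul_left_cancel g hzz
    · intro z hz
      rw [hO, Set.Finite.mem_toFinset] at hz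
      obtain ⟨k, rfl⟩ := hz
      refine ⟨(g⁻¹ * k) • y, ?_, ?_⟩
      · rw [hO, Set.Finite.mem_toFinset]
        exact ⟨g⁻¹ * k, rfl⟩
      · simp [← mul_smul]
    · intro z _; rfl
  have h0 := hinv _ hfix
  have hyO : y ∈ O := by
    rw [hO, Set.Finite.mem_toFinset]
    exact MulAction.mem_orbit_self y
  have hpos : 0 < (∑ z ∈ O, b z r) * b y r := by
    rw [Finset.sum_mul]
    refine Finset.sum_pos ?_ ⟨y, hyO⟩
    intro z hz
    rw [hO, Set.Finite.mem_toFinset] at hz
    obtain ⟨k, rfl⟩ := hz
    exact hy k r hrF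
  have h1 : b (∑ z ∈ O, z) r = ∑ z ∈ O, b z r := by
    simp
  rw [h1] at h0
  rw [h0] at hpos
  simp at hpos

theorem noInvisible_iff (hsymm : ∀ x y, b x y = b y x) (F : K3Frame G b)
    (horb : ∀ x : N, (MulAction.orbit G x).Finite) (h : F.HasStableChamber) :
    NoInvisibleRoot G b := by
  intro r hr
  by_contra hne
  push Not at hne
  exact root_contra hsymm F horb hr hne h

theorem stable_of_polar (F : K3Frame G b) (h : F.HasInvariantPolarisation) :
    F.HasStableChamber := by
  obtain ⟨x, hx, hfix, -, -, hr⟩ := h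
  refine ⟨x, hx, fun r hr' => (hr r hr'.1 hr'.2.1).1, fun g r hr' => ?_⟩
  rw [hfix g]
  exact mul_self_pos.mpr (hr r hr'.1 hr'.2.1).1

theorem polar_of_noInvisible [Module.Finite ℤ N] (hsymm : ∀ x y, b x y = b y x)
    (F : K3Frame G b) (h : NoInvisibleRoot G b) : F.HasInvariantPolarisation := by
  obtain ⟨y, hy, hyr⟩ := exists_generic hsymm F h
  obtain ⟨C, hC, -, hb⟩ := bound hsymm F hy.1
  have hpos := F.pos
  set l := b F.L F.L with hl
  set n : ℤ := C + 1 + 2 * |b y F.L| + |b y y| with hn
  have ha1 := abs_nonneg (b y F.L)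
  have ha2 := abs_nonneg (b y y)
  have ha3 := neg_abs_le (b y F.L)
  have ha4 := neg_abs_le (b y y)
  have hn1 : 1 ≤ n := by omega
  refine ⟨n • F.L + y, ⟨?_, ?_⟩, fun g => ?_, ?_, ?_, ?_⟩
  · simp [F.Lv, hy.1.1]
  · simp [F.Lw, hy.1.2]
  · rw [smul_add, smul_comm, F.fix_L, hy.2 g]
  · have : b (n • F.L + y) (n • F.L + y) = n * (n * l + 2 * b y F.L) + b y y := by
      simp only [map_add, map_smul, LinearMap.add_apply, LinearMap.smul_apply, smul_eq_mul, ← hl,
        hsymm F.L y]
      ring
    rw [this]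
    have h1 : 1 + |b y y| ≤ n * l + 2 * b y F.L := by nlinarith
    nlinarith
  · have : b (n • F.L + y) F.L = n * l + b y F.L := by
      simp [← hl]
    rw [this]
    nlinarith
  · intro r hr hrr
    have e1 : b (n • F.L + y) r = n * b F.L r + b y r := by simp
    rw [e1]
    by_cases hLr : b F.L r = 0
    · rw [hLr]
      have := hyr r ⟨hr, hrr, hLr⟩
      refine ⟨by simpa using this, by simp⟩
    · have h1 := hb r hr hrr hLr
      have h2 : 1 ≤ |b F.L r| := Int.one_le_abs hLr
      have h3 : 0 < (n * b F.L r + b y r) * b F.L r := by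
        have h4 : (n * b F.L r + b y r) * b F.L r = n * |b F.L r| ^ 2 + b y r * b F.L r := by
          rw [sq_abs]; ring
        have h5 : -(|b y r| * |b F.L r|) ≤ b y r * b F.L r := by
          rw [← abs_mul]; exact neg_abs_le _
        have h6 : |b y r| * |b F.L r| ≤ C * |b F.L r| * |b F.L r| :=
          mul_le_mul_of_nonneg_right h1 (abs_nonneg _)
        rw [h4]
        have h7 : C + 1 ≤ n := by omega
        have h8 : 0 < |b F.L r| * |b F.L r| := by positivity
        nlinarith
      refine ⟨fun h0 => ?_, h3.le⟩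
      rw [h0] at h3
      simp at h3

end Main

/-- **Derived invariance of the chamber condition.**  Let `G` act with finite orbits on a lattice
`N`.  Whether `G` stabilises a Weyl chamber of the exceptional roots of a K3 frame does not depend
on the frame (neither on the two isotropic classes nor on the polarisation): it holds exactly if
there is a `G`-fixed class on no mirror near the polarisation, and exactly if no vector of square
`-2` of the whole lattice `N` is orthogonal to all fixed vectors. -/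
theorem result {G N : Type*} [Group G] [AddCommGroup N] [DistribMulAction G N]
    [Module.Finite ℤ N] (b : LinearMap.BilinForm ℤ N) (hsymm : ∀ x y, b x y = b y x)
    (horb : ∀ x : N, (MulAction.orbit G x).Finite) (F F' : K3Frame G b) :
    (F.HasStableChamber ↔ F'.HasStableChamber) ∧
      (F.HasStableChamber ↔ F.HasInvariantPolarisation) ∧
      (F.HasStableChamber ↔ NoInvisibleRoot G b) := by
  have key : ∀ F : K3Frame G b, (F.HasStableChamber ↔ NoInvisibleRoot G b) := fun F =>
    ⟨noInvisible_iff hsymm F horb, fun h => stable_of_polar F (polar_of_noInvisible hsymm F h)⟩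
  refine ⟨(key F).trans (key F').symm, ⟨fun h => ?_, stable_of_polar F⟩, key F⟩
  exact polar_of_noInvisible hsymm F ((key F).mp h)

end Pool.Agent.Results.MP_819329_ag.StableChamber
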